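import Pool.Agent.W2helper26.MC.Stm
import Pool.Agent.H620R2.Gauge.Event
import Pool.Agent.H620R2.Gauge.S

/-!
# Project MC, piece MAJ: the majority language and the majority function
-/

set_option autoImplicit false

namespace Pool.Agent.W2helper13.MC

open Finset Pool.Agent.NPC Pool.Agent.H620R2.Gauge Pool.Agent.W2helper86.MD
  Pool.Agent.W2helper26.MC

theorem bitsOf_ones : ∀ n : ℕ, bitsOf n (2 ^ n - 1) = List.replicate n true
  | 0 => rfl
  | n + 1 => by
    have h1 : 0 < 2 ^ n := Nat.two_pow_pos n
    have h2 : (2 ^ (n + 1) - 1) / 2 = 2 ^ n - 1 := by rw [pow_succ]; omega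
    have h3 : (2 ^ (n + 1) - 1) % 2 = 1 := by rw [pow_succ]; omega
    rw [bitsOf, h2, h3, bitsOf_ones n, List.replicate_succ]
    rfl

theorem p_maj : P_maj := by
  intro A x n k hx hn hk
  have hpow : 2 ^ n = 2 ^ (n - 1) * 2 := by
    rw [← pow_succ]; congr 1; omega
  have hpos : 0 < 2 ^ n := Nat.two_pow_pos n
  have hcnt : cntA A x = wt (fun a : Fin (2 * k + 1) => A (x ++ bitsOf n a)) := by
    have hset : {w : List Bool | w.length = x.length ∧ w ≠ List.replicate x.length true ∧
        A (x ++ w) = true} = (((univ.filter
          (fun a : Fin (2 * k + 1) => A (x ++ bitsOf n a) = true)).image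
            (fun a : Fin (2 * k + 1) => bitsOf n (a : ℕ)) : Finset (List Bool)) :
              Set (List Bool)) := by
      ext w
      simp only [Set.mem_setOf_eq, Finset.coe_image, Finset.coe_filter, Finset.mem_univ, true_and,
        Set.mem_image]
      constructor
      · rintro ⟨hw, hne, hA⟩
        obtain ⟨j, hj, hjw⟩ := exists_bitsOf w
        rw [hw, hx] at hj hjw
        have hj2 : j < 2 * k + 1 := by
          rcases Nat.lt_or_ge j (2 * k + 1) with h | h
          · exact h
          · exfalso
            have : j = 2 ^ n - 1 := by omega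
            rw [this, bitsOf_ones, ← hx] at hjw
            exact hne hjw.symm
        exact ⟨⟨j, hj2⟩, by rw [hjw]; exact hA, hjw⟩
      · rintro ⟨a, ha, rfl⟩
        refine ⟨by rw [length_bitsOf, hx], ?_, ha⟩
        intro h
        rw [hx, ← bitsOf_ones] at h
        have h2 := bitsOf_inj (by have := a.2; omega) (by omega) h
        have := a.2
        omega
    unfold cntA wt
    rw [hset, Set.ncard_coe_finset, Finset.card_image_of_injOn]
    intro a _ b _ hab
    have h2 := bitsOf_inj (by have := a.2; omega) (by have := b.2; omega) hab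
    exact Fin.ext h2
  unfold majL majF
  rw [Set.mem_setOf_eq, hcnt, hx, decide_eq_true_iff]
  constructor
  · rintro ⟨_, h⟩
    omega
  · intro h
    exact ⟨hn, by omega⟩

end Pool.Agent.W2helper13.MC
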